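import Pool.Agent.Q158.ConnSpanB

/-!
# MP_662923_co: the poset of connected spanning subgraphs need not be Sperner

A spanning subgraph of a graph `G` on `Fin n` is a `H : SimpleGraph (Fin n)` with `H ≤ G`, and
`≤` between such graphs is inclusion of edge sets.
-/

namespace Pool.Agent.Results.MP_662923_co.NotSperner

/-- There is a connected graph `G` and an antichain `A` of connected spanning subgraphs of `G`
that is strictly larger than the set of connected spanning subgraphs with `k` edges, for
every `k`. -/
theorem result : ∃ (n : ℕ) (G : SimpleGraph (Fin n)), G.Connected ∧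
    ∃ A : Set (SimpleGraph (Fin n)), (∀ H ∈ A, H ≤ G ∧ H.Connected) ∧ IsAntichain (· ≤ ·) A ∧
      ∀ k : ℕ, {H : SimpleGraph (Fin n) | H ≤ G ∧ H.Connected ∧ H.edgeSet.ncard = k}.ncard <
        A.ncard :=
  Q158.ConnSpan.result_aux

end Pool.Agent.Results.MP_662923_co.NotSperner
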